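import Pool.Agent.SU.CC

/-
MP_90aa37_lc, Q1: a lower bound for the character of decomposable ultrafilters, in ZFC.
-/

open Cardinal Ordinal Set SU

namespace Pool.Agent.Results.MP_90aa37_lc.CharacterCofinality

/-- If an ultrafilter `U` is `l n`-decomposable for a strictly increasing sequence `l` of regular cardinals, then every
base of `U` has at least `cf (∏ l n)` elements (cofinality of the product ordered everywhere). -/
theorem result (X : Type) (U : Ultrafilter X) (B : Set (Set X)) (hB : BaseOf U B)
    (l : ℕ → Cardinal.{0}) (hl : StrictMono l) (hr : ∀ n, (l n).IsRegular)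
    (hd : ∀ n, Decomposable U (l n)) : Order.cof (∀ n, (l n).ord.ToType) ≤ #B :=
  char_ge_cof U (fun i : B => i.1) (fun i => hB.1 i.1 i.2)
    (fun A hA => by
      obtain ⟨A', hA', h⟩ := hB.2 A hA
      exact ⟨⟨A', hA'⟩, h⟩) l hl hr hd

end Pool.Agent.Results.MP_90aa37_lc.CharacterCofinality
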