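import Pool.Agent.SU.Dir

/-
MP_90aa37_lc, Q1: the characters of uniform ultrafilters on `ℵ_ω`, `ℵ_ω` a strong limit, are regular.
-/

open Cardinal Ordinal Set SU

namespace Pool.Agent.Results.MP_90aa37_lc.RegularCharacter

/-- If `ℵ_ω` is a strong limit, then the character of every uniform ultrafilter on a set of size `ℵ_ω` is a regular
cardinal if it is below `ℵ_{ω_ω}`; in particular `u(ℵ_ω)` is regular if it is below `ℵ_{ω_ω}`. -/
theorem result (hκ : (ℵ_ ω : Cardinal.{0}).IsStrongLimit) :
    (∀ (X : Type) (U : Ultrafilter X), #X = ℵ_ ω → Uniform U → character U < ℵ_ (ω_ ω) →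
      (character U).IsRegular) ∧
    (ultrafilterNumber (ℵ_ ω) < ℵ_ (ω_ ω) → (ultrafilterNumber (ℵ_ ω)).IsRegular) :=
  ⟨fun _ U hX hU h => character_regular hκ U hX hU h, number_regular hκ⟩

end Pool.Agent.Results.MP_90aa37_lc.RegularCharacter
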