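import Pool.Agent.SU.Dir
import Pool.Agent.SU.CC

/-
MP_90aa37_lc, Q1: the structure of all ultrafilters with a base of fewer than `2 ^ ℵ_ω` sets, `ℵ_ω` a strong
limit (in particular of all witnesses of `u(ℵ_ω) = ℵ_{ω+1} < 2 ^ ℵ_ω`).
-/

open Cardinal Ordinal Set SU

namespace Pool.Agent.Results.MP_90aa37_lc.SmallCharacter

/-- Let `ℵ_ω` be a strong limit and `U` any ultrafilter with a base of fewer than `2 ^ ℵ_ω` (and fewer than
`ℵ_{ω_ω}`) sets.  Then there are `k` and a partition `p` into fewer than `ℵ_k` pieces such that `U` is not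
`ℵ_m`-decomposable for `m ≥ k`; `p` is finer, modulo `U`, than every partition into fewer than `ℵ_ω` pieces; any `ℵ_ω`
sets of `U` contain, over almost all pieces of `p`, one set of `U`; the canonical polarized partition relation holds
for `U` and every regular cardinal above the size of the base; and if `U` is a uniform ultrafilter on a set of size
`ℵ_ω`, then it has an image in normal form. -/
theorem result (hκ : (ℵ_ ω : Cardinal.{0}).IsStrongLimit)
    (X : Type) (U : Ultrafilter X) (B : Set (Set X)) (hB : BaseOf U B)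
    (h1 : #B < 2 ^ (ℵ_ ω : Cardinal.{0})) (h2 : #B < ℵ_ (ω_ ω)) :
    (∃ k : ℕ, (∀ m : ℕ, k ≤ m → ¬ Decomposable U (ℵ_ (m : Ordinal.{0}))) ∧
      ∃ (T : Type) (p : X → T), #T < ℵ_ (k : Ordinal.{0}) ∧
        (∀ (S : Type) (f : X → S), #S < ℵ_ ω → ∃ g : T → S, {x | f x = g (p x)} ∈ U) ∧
        (∀ (J : Type) (A : J → Set X), #J ≤ ℵ_ ω → (∀ j, A j ∈ U) →
          ∃ A' ∈ U, ∀ j, {t | ∀ x, p x = t → x ∈ A' → x ∈ A j} ∈ U.map p) ∧
        (∀ (Y S : Type) (c : Y → X → S), (#Y).IsRegular → #B < #Y → ℵ_ ω ≤ #Y → #S < ℵ_ ω →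
          ∃ (Y' : Set Y) (A : Set X) (g : T → S), #Y' = #Y ∧ A ∈ U ∧
            ∀ y ∈ Y', ∀ x ∈ A, c y x = g (p x))) ∧
    (#X = ℵ_ ω → Uniform U → ∃ (T : Type) (F : T → ℕ) (φ : X → Sm F), NormalForm F (U.map φ) ∧
      ℵ_ ω < prodCof ((U.map φ).map (fun x => F x.1)) ∧
        prodCof ((U.map φ).map (fun x => F x.1)) ≤ #B) := by
  have hB' := isBase_of_baseOf hB
  constructor
  · obtain ⟨k, hk⟩ := small_char U _ hB' hκ h1 h2
    obtain ⟨T0, p0, hT0, hp0⟩ := finest U _ hB' hκ h1 h2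
    obtain ⟨T, p, hT, hp⟩ := shrink U k p0 hT0 hk hp0
    refine ⟨k, fun m hm hd => ?_, T, p, hT, hp, fun J A hJ hA => dirP U p hκ (fac_of_eq hp) hJ A hA,
      fun Y S c hY h3 h4 hS => pol U _ hB' hκ p (hT.trans (aleph_nat_lt k)) hp hY h3 h4 hS c⟩
    obtain ⟨S, f, hS, hf⟩ := hd
    obtain ⟨A, hA, hA2⟩ := hk S f (by rw [hS]; exact aleph_nat_lt m)
    rw [hf A hA] at hA2
    refine absurd hA2 (not_lt.2 (aleph_le_aleph.2 ?_))
    exact_mod_cast hm
  · intro hX hU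
    obtain ⟨T, F, φ, hNF⟩ := normalForm_exists U _ hB' hκ h1 h2 hX hU
    exact ⟨T, F, φ, hNF, prodCof_bounds hNF _ (isBase_map U _ hB' φ)⟩

end Pool.Agent.Results.MP_90aa37_lc.SmallCharacter
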