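import Pool.Agent.SU.PC
import Pool.Agent.SU.Reg

/-
MP_90aa37_lc, Q1: an exact reduction of the ultrafilter clause of the configuration of Q1.

The configuration of Q1 (`ℵ_ω` is a strong limit, `2 ^ ℵ_ω > ℵ_{ω+1}`, `u(ℵ_ω) = ℵ_{ω+1}`, tree property at
`ℵ_{ω+2}`) holds if and only if `ℵ_ω` is a strong limit, `2 ^ ℵ_ω > ℵ_{ω+1}`, the tree property holds at `ℵ_{ω+2}`, and
there is a fibrewise complete and fibrewise uniform ultrafilter `V` on a disjoint sum of the ordinals `ω_{F t}`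
(`t : T`, `#T < ℵ_ω`, `F` unbounded modulo the projection `D` of `V` to `T`), which is generated over `D` by a tower of
length `ω_{ω+1}`.  Moreover every uniform ultrafilter on a set of size `ℵ_ω` with a base of `ℵ_{ω+1} < 2 ^ ℵ_ω` sets has
such a `V` as an image.
-/

open Cardinal Ordinal Set SU

namespace Pool.Agent.Results.MP_90aa37_lc.TowerReduction

theorem result :
    (((ℵ_ ω : Cardinal.{0}).IsStrongLimit ∧
        ℵ_ ((ω : Ordinal.{0}) + 1) < 2 ^ (ℵ_ ω : Cardinal.{0}) ∧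
        ultrafilterNumber (ℵ_ ω) = ℵ_ ((ω : Ordinal.{0}) + 1) ∧
        TreeProperty (ℵ_ ((ω : Ordinal.{0}) + 2))) ↔
      ((ℵ_ ω : Cardinal.{0}).IsStrongLimit ∧
        ℵ_ ((ω : Ordinal.{0}) + 1) < 2 ^ (ℵ_ ω : Cardinal.{0}) ∧
        (∃ (T : Type) (F : T → ℕ) (V : Ultrafilter (Sm F))
          (C : (ω_ ((ω : Ordinal.{0}) + 1)).ToType → Set (Sm F)),
          NormalForm F V ∧ IsTower V C ∧
            prodCof (V.map (fun x => F x.1)) = ℵ_ ((ω : Ordinal.{0}) + 1)) ∧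
        TreeProperty (ℵ_ ((ω : Ordinal.{0}) + 2)))) ∧
    ((ℵ_ ω : Cardinal.{0}).IsStrongLimit →
      ℵ_ ((ω : Ordinal.{0}) + 1) < 2 ^ (ℵ_ ω : Cardinal.{0}) →
      ∀ (X : Type) (U : Ultrafilter X) (B : Set (Set X)), #X = ℵ_ ω → Uniform U → BaseOf U B →
        #B = ℵ_ ((ω : Ordinal.{0}) + 1) →
        ∃ (T : Type) (F : T → ℕ) (φ : X → Sm F)
          (C : (ω_ ((ω : Ordinal.{0}) + 1)).ToType → Set (Sm F)),
          NormalForm F (U.map φ) ∧ IsTower (U.map φ) C ∧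
            prodCof ((U.map φ).map (fun x => F x.1)) = ℵ_ ((ω : Ordinal.{0}) + 1)) := by
  have key : (ℵ_ ω : Cardinal.{0}).IsStrongLimit →
      ℵ_ ((ω : Ordinal.{0}) + 1) < 2 ^ (ℵ_ ω : Cardinal.{0}) →
      ∀ (X : Type) (U : Ultrafilter X) (B : Set (Set X)), #X = ℵ_ ω → Uniform U → BaseOf U B →
        #B = ℵ_ ((ω : Ordinal.{0}) + 1) →
        ∃ (T : Type) (F : T → ℕ) (φ : X → Sm F)
          (C : (ω_ ((ω : Ordinal.{0}) + 1)).ToType → Set (Sm F)),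
          NormalForm F (U.map φ) ∧ IsTower (U.map φ) C ∧
            prodCof ((U.map φ).map (fun x => F x.1)) = ℵ_ ((ω : Ordinal.{0}) + 1) := by
    intro hκ h2 X U B hX hU hB hc
    obtain ⟨T, F, φ, hNF⟩ := normalForm_exists U _ (isBase_of_baseOf hB) hκ (by rw [hc]; exact h2)
      (lt_omega_omega hc.le) hX hU
    have hB' := isBase_map U _ (isBase_of_baseOf hB) φ
    obtain ⟨C, hC1, hC2, hC3⟩ := exists_tower hNF hκ _ hB' hc
    refine ⟨T, F, φ, C, hNF, ⟨hC1, hC2, fun A hA => ?_⟩, prodCof_eq hNF _ hB' hc⟩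
    obtain ⟨i, hi⟩ := hC3 A hA
    exact ⟨i, _, hi, fun x hx => hx.2 x.2 hx.1⟩
  refine ⟨⟨?_, ?_⟩, key⟩
  · rintro ⟨h1, h2, h3, h4⟩
    obtain ⟨X, U, B, hX, hU, hB, hc⟩ := number_spec
    rw [h3] at hc
    obtain ⟨T, F, φ, C, hh⟩ := key h1 h2 X U B hX hU hB hc
    exact ⟨h1, h2, ⟨T, F, U.map φ, C, hh⟩, h4⟩
  · rintro ⟨h1, h2, ⟨T, F, V, C, h3, h5, -⟩, h4⟩
    exact ⟨h1, h2, eq_of_tower h1 h3 h5, h4⟩

end Pool.Agent.Results.MP_90aa37_lc.TowerReduction
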